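import Pool.Agent.H539R2.MainQ

/-!
Deterministic linear space is not contained in alternating (`k` blocks of quantified words)
cellular automaton time `o((n / log n) ^ (1 + 1 / d))`, for any dimension `d`.
-/

namespace Pool.Agent.Results.MP_a2d820_lc.AlternatingCA

open Pool.Agent.H539R2 Filter

/-- For all `K ≥ 1` and `k` there is a deterministic linear bounded automaton `A`, accepting only
words over the one-letter alphabet `{true}`, such that for every dimension `d ≥ 1` the language of
`A` is not of the form `{x | Q₁ y₁ Q₂ y₂ ... Q_k y_k : V accepts (x, y₁, ..., y_k)}`, with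
alternating quantifiers over words `y_i` of length `|x|` over an alphabet with `K` letters and a
cellular automaton `V` on the grid `ℤ^d` working in time `T n = o((n / log n) ^ (1 + 1 / d))`. -/
theorem result (K k : ℕ) (hK : 1 ≤ K) :
    ∃ A : LBA, (∀ w, A.Acc w → ∀ x ∈ w, x = true) ∧
      ∀ (d : ℕ) [NeZero d] (V : QCA d k K) (b : Bool) (T : ℕ → ℕ),
        (fun n => (T n : ℝ)) =o[atTop]
          (fun n => ((n : ℝ) / Real.log n) ^ (1 + 1 / (d : ℝ))) →
        V.InTime T → ¬ ∀ x, (A.Acc x ↔ Alt x.length K k b (V.Acc x)) :=
  DD.mainAlt K k hK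

end Pool.Agent.Results.MP_a2d820_lc.AlternatingCA
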