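import Pool.Agent.H564R2.QF.Main
import Pool.Agent.H564R2.QF.Upper

/-!
# Refuting quantified Boolean formulas with formula lines, modulo games with few looks

Proofs of falsity of quantified Boolean formulas are studied as a proof theoretic form of the
question how far PSPACE is from the levels of the polynomial hierarchy. The refutations considered
here (`Refutation Φ k`, see `Pool/Agent/H564R2/QF/GameDefs.lean`) may use lines which are arbitrary
Boolean functions, all semantic inferences, universal reductions of sets of lines, and, as axioms,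
all facts which say that the universal player wins from certain positions with `k` looks at the
moves, that is, true facts about games with a bounded number of alternations.

The theorem is about the false formulas `game r n` with `r` rounds, in which the existential
player plays a vector `x l` of `n` bits in round `l`, and the universal player has to answer with
its parity. With `r` looks there is a refutation with one line. With `k < r` looks, if the results
of the reductions are formulas of size `s` over functions of real degree `w`, then at least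
`(r - k) * 2 ^ (c * n ^ 2 / (w ^ 2 * s))` lines are needed. For one round, `2 ^ (n ^ 2 / s + 3)`
lines are enough, all of them formulas of size `5 * s` over variables.
-/

namespace Pool.Agent.Results.MP_a2d820_lc.FormulaLines

open Pool.Agent.H564R2.QF

theorem result :
    (∃ c : ℝ, 0 < c ∧ ∀ r n k w s : ℕ, 1 ≤ n → 1 ≤ w → n ≤ w * s →
      (∃ R : Refutation (game r n) r, R.len = 1) ∧
      ∀ R : Refutation (game r n) k,
        (∀ j < R.len, ∀ i b, R.step j = .red (.w i) b → FormulaOver s w (R.line j)) →
        ((r - k : ℕ) : ℝ) * (2 : ℝ) ^ (c * (n : ℝ) ^ 2 / ((w : ℝ) ^ 2 * s)) ≤ R.len) ∧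
    ∀ n s : ℕ, 1 ≤ n → n ≤ s →
      ∃ R : Refutation (game 1 n) 0, (R.len : ℝ) ≤ (2 : ℝ) ^ ((n : ℝ) ^ 2 / s + 3) ∧
        ∀ j < R.len, FormulaOver (5 * s) 1 (R.line j) := by
  refine ⟨⟨1 / (32 * 204480 ^ 2), by positivity, ?_⟩, ?_⟩
  · intro r n k w s hn hw hns
    exact ⟨one_line r n, fun R hR => all_rounds hn hw hns R hR⟩
  · intro n s hn hns
    obtain ⟨B, hB⟩ : ∃ B, B = (n ^ 2 + s - 1) / s := ⟨_, rfl⟩
    have hs : 0 < s := by omega
    have hB1 : 1 ≤ B := by
      rw [hB, Nat.le_div_iff_mul_le hs, one_mul]
      have : 1 ≤ n ^ 2 := Nat.one_le_pow _ _ hn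
      omega
    have hBs : B * s ≤ n ^ 2 + s - 1 := by rw [hB]; exact Nat.div_mul_le_self _ _
    have hBs2 : n ^ 2 ≤ B * s := by
      have h1 : n ^ 2 + s - 1 < (B + 1) * s := by
        rw [hB, mul_comm]; exact Nat.lt_mul_div_succ _ hs
      have h2 : (B + 1) * s = B * s + s := by ring
      omega
    have hBn : B ≤ n := by
      by_contra hcon
      push Not at hcon
      have h1 : (n + 1) * s ≤ B * s := Nat.mul_le_mul_right _ hcon
      have h2 : n * n ≤ n * s := Nat.mul_le_mul_left _ hns
      have h3 : (n + 1) * s = n * s + s := by ring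
      have h4 : n ^ 2 = n * n := sq n
      omega
    obtain ⟨R, hR1, hR2⟩ := upper n B hB1 hBn
    refine ⟨R, ?_, ?_⟩
    · rw [hR1]
      have h1 : (B : ℝ) ≤ (n : ℝ) ^ 2 / s + 1 := by
        have hsR : (0 : ℝ) < s := by exact_mod_cast hs
        rw [div_add_one hsR.ne', le_div_iff₀ hsR]
        have : ((B * s : ℕ) : ℝ) ≤ ((n ^ 2 + s : ℕ) : ℝ) := by
          exact_mod_cast (by omega : B * s ≤ n ^ 2 + s)
        push_cast at this
        linarith
      have h2 : (2 : ℝ) ^ ((B : ℝ) + 2) ≤ (2 : ℝ) ^ ((n : ℝ) ^ 2 / s + 3) := by
        apply Real.rpow_le_rpow_of_exponent_le (by norm_num)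
        linarith
      refine le_trans ?_ h2
      rw [Real.rpow_add (by norm_num), Real.rpow_natCast]
      push_cast
      have h3 : (1 : ℝ) ≤ 2 ^ B := one_le_pow₀ (by norm_num)
      norm_num
      linarith
    · intro j hj
      obtain ⟨φ, hφ, hφ2⟩ := hR2 j hj
      refine FormulaOver.of_formula φ ?_ hφ2
      have h1 : φ.size * B ≤ (5 * s) * B := by
        have h2 : 4 * n ^ 2 ≤ 4 * (B * s) := Nat.mul_le_mul_left _ hBs2
        have h3 : B * 1 ≤ B * s := Nat.mul_le_mul_left _ hs
        have h4 : (5 * s) * B = 5 * (B * s) := by ring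
        omega
      exact Nat.le_of_mul_le_mul_right h1 (by omega)

end Pool.Agent.Results.MP_a2d820_lc.FormulaLines
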