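import Pool.Agent.H611R3.AltNeg

/-!
# An analogue of PSPACE versus the polynomial hierarchy, for circuits with few NOT gates

`AltMono e d G s F` says that the predicate `F` on bit strings can be written with `d` alternating
blocks of quantifiers over `G` bits each (the first block is existential if `e = true`, universal
if `e = false`) in front of functions `f z` which, for all values `z` of the quantified bits,
have monotone circuits with at most `s` AND and OR gates. The dependence on the quantified bits is
arbitrary. `BPAltNeg e d G s K F` says the same, but with an additional probabilistic quantifier in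
front (arbitrarily many random bits, two-sided error one third) and with functions which are
computed by at most `s` AND and OR gates from constants, the input bits `x` and the wires of one of
finitely many circuits `C i` which read only `x` and contain few non-monotone gates (arbitrary
gates, of arbitrary fan-in, for instance NOT gates): the sum over all `i` of `∏ (a + 1) - 1`, the
product ranging over these gates of `C i`, `a` being the fan-in, is less than `K`. For instance,
`K = 2 ^ t' * (2 ^ t - 1) + 1` if there are `t` NOT gates, which may be fed by gates that depend
on `x` and on `t'` of the random and quantified bits, if all other gates are monotone in `x`.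

The theorem is about the explicit monotone predicate `BigTower true M D 2 v k`: given are
`M * 2 ^ D` graphs on `v` vertices, indexed by `j < M` and `i = (i₁, ..., i_D)` in `{0, 1} ^ D`,
and the predicate is

  `∃ (j, i₁) ∀ i₂ ∃ i₃ ... Q i_D` : the graph number `(j, i)` has a clique with `k` vertices

(for even `D`: has no independent set with `k` vertices). It is given by `D` alternating blocks of
`log M + v + 3` bits in front of functions with monotone circuits of size `k ^ 2`. But with a
bounded number `d` of alternations it cannot be computed by blocks of fewer than about
`2 ^ (D / (2 * d + 2))` bits in front of circuits with fewer than `2 ^ (√k - 1)` gates and with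
`K ≤ M`, for any `d`, even if random bits may be used. Here `v = 200 k ^ 4`. With `M = N ^ (1 - ε)`,
`N` being the number of input bits, this allows for `t + t' = (1 - ε) log N`; with `t = 1` and
`t' = ⌈log (N + 1)⌉` such circuits can simulate all circuits.
-/

namespace Pool.Agent.Results.MP_a2d820_lc.ManyAlternationsNegations

open Pool.Agent.H611R2 Pool.Agent.H611R3

theorem result (D r M : ℕ) (hD : 1 ≤ D) (hr : 2 ≤ r) (hM : 1 ≤ M) :
    AltMono true D (Nat.size M + 2 + 200 * r ^ 8) (r ^ 4)
      (BigTower true M D 2 (200 * r ^ 8) (r ^ 2)) ∧
    ∀ (e : Bool) (d b G s K : ℕ), 2 * (d + 1) * b ≤ D → 21 * (G + 3) ≤ 2 ^ b → 2 * s < 2 ^ r →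
      K ≤ M → ¬ BPAltNeg e d G s K (BigTower true M D 2 (200 * r ^ 8) (r ^ 2)) := by
  constructor
  · have h := upper_big (e := true) (v := 200 * r ^ 8) (k := r ^ 2) (m := 2)
      (G := Nat.size M + 2 + 200 * r ^ 8) hD (by norm_num) hM
      (by rw [show Nat.size 2 = 2 by decide]; omega)
    have h2 : (r ^ 2) ^ 2 = r ^ 4 := by ring
    rw [h2] at h
    exact h
  · intro e d b G s K hD2 hG hs hK h
    obtain ⟨a, rfl⟩ : ∃ a, b = a + 1 := by
      refine ⟨b - 1, ?_⟩
      have : b ≠ 0 := by
        rintro rfl
        norm_num at hG
        omega
      omega
    have hc : 2 ≤ r ^ 2 := by nlinarith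
    have hcv : r ^ 2 ≤ 200 * r ^ 8 := by
      calc r ^ 2 ≤ r ^ 8 := Nat.pow_le_pow_right (by omega) (by omega)
        _ ≤ 200 * r ^ 8 := by omega
    refine many_vs_few hr (by norm_num) ?_ hG hs (bp_transfer_tower (by norm_num) hc hcv h hK)
    nlinarith

end Pool.Agent.Results.MP_a2d820_lc.ManyAlternationsNegations
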