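import Mathlib
import Pool.Agent.H553R2.TreeCor

namespace H553R2

open Equiv

/-- PSPACE versus PH (and the counting hierarchy) for relabelling-invariant computations.
Derivability in `r` rounds is decided by small invariant AND/OR circuits with `2 r` levels, but not
by invariant circuits of bounded depth with arbitrary counting gates, unless they are huge. -/
theorem _root_.Pool.Agent.Results.MP_a2d820_lc.RoundHierarchy.result :
    -- (1) `2 r` alternating levels and polynomial size suffice for `r` rounds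
    (∀ (n r : ℕ) (M : Type) (_ : Fintype M) (s t : M),
      ∃ (Q : Type) (_ : Fintype Q) (_ : MulAction (Perm (Fin n)) Q) (C : SymCircuit n M Unit Q),
        Fintype.card Q ≤ 2 * (r + 1) * (n + Fintype.card M) ^ 3 ∧ C.level C.out ≤ 2 * r ∧
        C.IsAndOr ∧ ∀ R, C.val R C.out ↔ DerivableIn R (Sum.inr s) r (Sum.inr t)) ∧
    -- (2) `m` rounds are not decided in constant depth and size `2 ^ m ^ c` with counting gates
    (∀ c d : ℕ, ∃ m0 : ℕ, ∀ m, m0 ≤ m → ∀ (M Λ Q : Type) (_ : Fintype Q)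
      (_ : MulAction (Perm (Fin (2 ^ (m + 1)))) Q) (C : SymCircuit (2 ^ (m + 1)) M Λ Q) (s t : M),
      s ≠ t → C.level C.out ≤ d → Fintype.card Q ≤ 2 ^ m ^ c →
      ¬ ∀ R, C.val R C.out ↔ DerivableIn R (Sum.inr s) m (Sum.inr t)) ∧
    -- (3) the quantitative form
    (∀ (n d a k r : ℕ) (M Λ Q : Type) (_ : Fintype Q) (_ : MulAction (Perm (Fin n)) Q)
      (C : SymCircuit n M Λ Q) (s t : M), s ≠ t → 1 ≤ a → 2 * a + 1 < 2 ^ k →
      (d + 1) * k + 3 ≤ r → 10 ^ 8 * a ^ 4 ≤ n → 2 ^ (r + 1) ≤ n → C.level C.out ≤ d →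
      (∀ R, C.val R C.out ↔ DerivableIn R (Sum.inr s) r (Sum.inr t)) → n ^ a < Fintype.card Q) ∧
    -- (4) a form where `200 r ^ 3` interchangeable elements suffice
    (∀ (n d a r : ℕ) (M Λ Q : Type) (_ : Fintype Q) (_ : MulAction (Perm (Fin n)) Q)
      (C : SymCircuit n M Λ Q) (s t : M), s ≠ t → 1 ≤ a →
      6 * (d + 1) * (2 * a + 1) ^ 3 + 2 ≤ r → 200 * r ^ 3 ≤ n → C.level C.out ≤ d →
      (∀ R, C.val R C.out ↔ DerivableIn R (Sum.inr s) r (Sum.inr t)) → n ^ a < Fintype.card Q) := by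
  refine ⟨?_, tree_asymptotic, ?_, ?_⟩
  · intro n r M _ s t
    exact rounds_upper n r M s t
  · intro n d a k r M Λ Q _ _ C s t hst ha hk hr hn1 hn2 hd hC
    exact tree_lower C hst ha hk hr hn1 hn2 hd hC
  · intro n d a r M Λ Q _ _ C s t hst ha hr hn hd hC
    exact rounds_lower C hst ha hr hn hd hC

end H553R2
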